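import Mathlib
import Pool.Agent.H.MP_63c1c3_gt.A

open Set TopologicalSpace

namespace Pool.Agent.Results.MP_63c1c3_gt.CrossOpen

/-- separately continuous real functions -/
def SepCont (X Y : Type) [TopologicalSpace X] [TopologicalSpace Y] : Type :=
  {f : X × Y → ℝ // (∀ x, Continuous fun y => f (x, y)) ∧ ∀ y, Continuous fun x => f (x, y)}

/-- the cross of a point -/
def cross {X Y : Type} (c : X × Y) : Set (X × Y) := {p | p.2 = c.2 ∨ p.1 = c.1}

/-- the cross-open topology -/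
def cro (X Y : Type) [TopologicalSpace X] [TopologicalSpace Y] :
    TopologicalSpace (SepCont X Y) :=
  generateFrom {T | ∃ (c : X × Y) (O : Set (X × Y)) (W : Set ℝ), IsOpen O ∧ IsOpen W ∧
    T = {s | ∀ p ∈ closure (O ∩ cross c) ∩ cross c, s.1 p ∈ W}}

theorem result (X Y : Type) [TopologicalSpace X] [TopologicalSpace Y] [PolishSpace X]
    [PolishSpace Y] (K : Set (SepCont X Y)) (hK : @IsCompact _ (cro X Y) K) :
    @MetrizableSpace K (TopologicalSpace.induced Subtype.val (cro X Y)) := by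
  letI := cro X Y
  refine Pool.Agent.H.MP_63c1c3_gt.main (fun s : SepCont X Y => s.1) Subtype.val_injective
    (fun s => s.2.1) (fun s => s.2.2) (fun c => continuous_def.2 fun W hW =>
      isOpen_iff_forall_mem_open.2 fun s hs => ?_) K hK
  obtain ⟨O, o1, o2, o3⟩ := Pool.Agent.H.MP_63c1c3_gt.cross s.2.1 s.2.2 c hW hs
  exact ⟨{t | ∀ p ∈ closure (O ∩ cross c) ∩ cross c, t.1 p ∈ W}, fun t ht => ht c
    ⟨subset_closure ⟨o2, Or.inl rfl⟩, Or.inl rfl⟩,
    isOpen_generateFrom_of_mem ⟨c, O, W, o1, hW, rfl⟩, fun p hp => o3 p hp.1⟩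

end Pool.Agent.Results.MP_63c1c3_gt.CrossOpen
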