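import Mathlib
import Pool.Agent.H.MP_63c1c3_gt.A

open Set TopologicalSpace

namespace Pool.Agent.Results.MP_63c1c3_gt.CrossUniform

/-- separately continuous real functions -/
def SepCont (X Y : Type) [TopologicalSpace X] [TopologicalSpace Y] : Type :=
  {f : X × Y → ℝ // (∀ x, Continuous fun y => f (x, y)) ∧ ∀ y, Continuous fun x => f (x, y)}

/-- the cross of a point -/
def cross {X Y : Type} (c : X × Y) : Set (X × Y) := {p | p.2 = c.2 ∨ p.1 = c.1}

/-- the cross-uniform topology -/
def cru (X Y : Type) [TopologicalSpace X] [TopologicalSpace Y] :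
    TopologicalSpace (SepCont X Y) :=
  generateFrom {T | ∃ (c : X × Y) (t : SepCont X Y) (ε : ENNReal),
    T = {s | ⨆ p ∈ cross c, edist (s.1 p) (t.1 p) < ε}}

theorem result (X Y : Type) [TopologicalSpace X] [TopologicalSpace Y] [PolishSpace X]
    [PolishSpace Y] (K : Set (SepCont X Y)) (hK : @IsCompact _ (cru X Y) K) :
    @MetrizableSpace K (TopologicalSpace.induced Subtype.val (cru X Y)) := by
  letI := cru X Y
  refine Pool.Agent.H.MP_63c1c3_gt.main (fun s : SepCont X Y => s.1) Subtype.val_injective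
    (fun s => s.2.1) (fun s => s.2.2) (fun c => continuous_def.2 fun W hW =>
      isOpen_iff_forall_mem_open.2 fun s hs => ?_) K hK
  obtain ⟨ε, e1, e2⟩ := EMetric.isOpen_iff.1 hW _ hs
  exact ⟨_, fun t ht => e2 ((le_iSup₂ (f := fun p (_ : p ∈ cross c) => edist (t.1 p) (s.1 p)) c
    (Or.inl rfl)).trans_lt ht), isOpen_generateFrom_of_mem ⟨c, s, ε, rfl⟩, by
      show ⨆ p ∈ cross c, edist (s.1 p) (s.1 p) < ε
      simpa using e1⟩

end Pool.Agent.Results.MP_63c1c3_gt.CrossUniform
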